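import Mathlib
import Pool.Agent.H25.Vald

set_option autoImplicit false

namespace Pool.Agent.Results.MP_42f98c_gt.No

open Set Topology

/-- `A` is a Σ-subset of `K`. -/
def IsSigmaSubset {K : Type} [TopologicalSpace K] (A : Set K) : Prop :=
  ∃ (Γ : Type) (φ : K → Γ → ℝ), IsEmbedding φ ∧ A = φ ⁻¹' {x | {γ | x γ ≠ 0}.Countable}

/-- A Valdivia compact space and a finite abelian group of automorphisms of it that leaves no dense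
Σ-subset invariant. -/
theorem result : ∃ (K : Type) (_ : TopologicalSpace K), CompactSpace K ∧ T2Space K ∧
    (∃ A : Set K, Dense A ∧ IsSigmaSubset A) ∧
    ∃ G : Subgroup (K ≃ₜ K), Finite G ∧ (∀ g ∈ G, ∀ g' ∈ G, g * g' = g' * g) ∧
      ¬ ∃ A : Set K, Dense A ∧ IsSigmaSubset A ∧ ∀ g ∈ G, g '' A ⊆ A := by
  obtain ⟨K, _, k1, k2, ⟨Γ, φ, a1, a2⟩, h, h1, h2, h3⟩ := Pool.Agent.H25.Vald.ex
  let e : K ≃ₜ K := ⟨⟨h, h, h2, h2⟩, h1, h1⟩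
  refine ⟨K, inferInstance, k1, k2, ⟨_, a2, Γ, φ, a1, rfl⟩, Subgroup.zpowers e,
    (finite_zpowers.2 (isOfFinOrder_iff_pow_eq_one.2 ⟨2, two_pos, Homeomorph.ext h2⟩)).to_subtype,
    ?_, ?_⟩
  · rintro _ ⟨m, rfl⟩ _ ⟨n, rfl⟩
    exact zpow_mul_comm e m n
  · rintro ⟨_, b1, ⟨Γ', ψ, b3, rfl⟩, b2⟩
    exact h3 Γ' ψ b3 b1 fun x hx => b2 e (Subgroup.mem_zpowers e) ⟨x, hx, rfl⟩

end Pool.Agent.Results.MP_42f98c_gt.No
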